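import Pool.Agent.J6H84.TS.Stm

/-!
# Module TS-CODE: a linear code from a semiregular `p`-group of automorphisms
-/

set_option autoImplicit false

namespace Pool.Agent.J6H78.TS.Code

open Finset Pool.Agent.H430R2.PermCubes Pool.Agent.J6H84.LM Pool.Agent.J6H84.TS

section

variable {p : ℕ} [hp : Fact p.Prime] {m k : ℕ} {C : Fin k → (Fin m → Fin p) → Fin p}
  {P : Subgroup (Equiv.Perm (Fin m → Fin p))} {u : Fin k → (Fin p ≃ ZMod p)}
  {χ : Fin k → P → ZMod p}

theorem map_mul' (hχ : ∀ i (σ : P) x, u i (C i (σ.1 x)) = u i (C i x) + χ i σ) (i : Fin k)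
    (σ σ' : P) : χ i (σ * σ') = χ i σ + χ i σ' := by
  let x₀ : Fin m → Fin p := fun _ => ⟨0, hp.out.pos⟩
  have h1 := hχ i (σ * σ') x₀
  have h2 := hχ i σ (σ'.1 x₀)
  have h3 := hχ i σ' x₀
  have h4 : (σ * σ').1 x₀ = σ.1 (σ'.1 x₀) := rfl
  rw [h4, h2, h3] at h1
  have h5 := add_left_cancel ((add_assoc _ _ _).symm.trans h1)
  rw [← h5, add_comm]

theorem eq_one (hC : IsArray m p k C)
    (hχ : ∀ i (σ : P) x, u i (C i (σ.1 x)) = u i (C i x) + χ i σ) (σ : P) (S : Finset (Fin k))
    (hS : m ≤ S.card) (h : ∀ i ∈ S, χ i σ = 0) : σ = 1 := by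
  apply Subtype.ext
  apply Equiv.ext
  intro x
  refine hC.eq_of_agree S hS fun i hi => ?_
  have h1 := hχ i σ x
  rw [h i hi, add_zero] at h1
  exact (u i).injective h1

/-- the homomorphism of the characters -/
def hom (hχ : ∀ i (σ : P) x, u i (C i (σ.1 x)) = u i (C i x) + χ i σ) :
    Additive P →+ (Fin k → ZMod p) :=
  AddMonoidHom.mk' (fun σ i => χ i σ.toMul) fun σ σ' => funext fun i =>
    map_mul' hχ i σ.toMul σ'.toMul

theorem hom_apply (hχ : ∀ i (σ : P) x, u i (C i (σ.1 x)) = u i (C i x) + χ i σ)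
    (σ : Additive P) (i : Fin k) : hom hχ σ i = χ i σ.toMul := rfl

theorem hom_injective (hmk : m ≤ k) (hC : IsArray m p k C)
    (hχ : ∀ i (σ : P) x, u i (C i (σ.1 x)) = u i (C i x) + χ i σ) :
    Function.Injective (hom hχ) := by
  rw [injective_iff_map_eq_zero]
  intro σ hσ
  have h := eq_one hC hχ σ.toMul univ (by simpa using hmk) fun i _ => by
    rw [← hom_apply hχ σ i, hσ]
    rfl
  exact h

end

theorem main : S_Code := by
  intro p _ m k C hm hmk hC P hP u χ hχ
  have hp : p.Prime := Fact.out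
  set X := hom hχ with hX
  have hXinj : Function.Injective X := hom_injective hmk hC hχ
  let L : Submodule (ZMod p) (Fin k → ZMod p) := AddSubgroup.toZModSubmodule p X.range
  have hL : ∀ v, v ∈ L ↔ ∃ σ : P, ∀ i, χ i σ = v i := by
    intro v
    constructor
    · intro hv
      obtain ⟨σ, hσ⟩ : v ∈ X.range := hv
      exact ⟨σ.toMul, fun i => congrFun hσ i⟩
    · rintro ⟨σ, hσ⟩
      show v ∈ X.range
      exact ⟨Additive.ofMul σ, funext hσ⟩
  have hcard : Nat.card L = p ^ (m - 1) := by
    have h1 : Nat.card (Additive P) = Nat.card X.range :=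
      Nat.card_congr (AddMonoidHom.ofInjective hXinj).toEquiv
    have h2 : Nat.card L = Nat.card X.range := rfl
    rw [h2, ← h1]
    exact hP
  have hrank : Module.finrank (ZMod p) L = m - 1 := by
    have h1 := Module.natCard_eq_pow_finrank (K := ZMod p) (V := L)
    rw [hcard, Nat.card_zmod] at h1
    exact (Nat.pow_right_injective hp.two_le h1).symm
  -- a cell outside of an orbit
  let x₀ : Fin m → Fin p := fun _ => ⟨0, hp.pos⟩
  obtain ⟨x₁, hx₁⟩ : ∃ x₁ : Fin m → Fin p, ∀ σ : P, σ.1 x₀ ≠ x₁ := by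
    by_contra hcon
    push Not at hcon
    have h1 : Nat.card (Fin m → Fin p) ≤ Nat.card P :=
      Nat.card_le_card_of_surjective (fun σ : P => σ.1 x₀) hcon
    rw [hP, Nat.card_fun, Nat.card_fin, Nat.card_fin] at h1
    have h2 : p ^ (m - 1) < p ^ m := Nat.pow_lt_pow_right hp.one_lt (by omega)
    omega
  let δ : Fin k → ZMod p := fun i => u i (C i x₁) - u i (C i x₀)
  have hδ : δ ∉ L := by
    intro h
    obtain ⟨σ, hσ⟩ := (hL δ).1 h
    refine hx₁ σ (hC.eq_of_agree univ (by simpa using hmk) fun i _ => (u i).injective ?_)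
    rw [hχ, hσ i]
    show u i (C i x₀) + (u i (C i x₁) - u i (C i x₀)) = _
    ring
  let L' : Submodule (ZMod p) (Fin k → ZMod p) := L ⊔ Submodule.span (ZMod p) {δ}
  have hLL' : L < L' := by
    refine lt_of_le_of_ne le_sup_left fun h => hδ ?_
    rw [h]
    exact Submodule.mem_sup_right (Submodule.mem_span_singleton_self δ)
  have hfr : m ≤ Module.finrank (ZMod p) L' := by
    have := Submodule.finrank_lt_finrank_of_lt hLL'
    omega
  have claim : ∀ v ∈ L', ∀ S : Finset (Fin k), m ≤ S.card → (∀ i ∈ S, v i = 0) → v = 0 := by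
    intro v hv S hS hvS
    obtain ⟨y, hy, z, hz, rfl⟩ := Submodule.mem_sup.1 hv
    obtain ⟨c, rfl⟩ := Submodule.mem_span_singleton.1 hz
    by_cases hc : c = 0
    · obtain ⟨σ, hσ⟩ := (hL y).1 hy
      have h1 : σ = 1 := eq_one hC hχ σ S hS fun i hi => by
        have := hvS i hi
        rw [hc, zero_smul, add_zero] at this
        rw [hσ i, this]
      have h2 : ∀ i, χ i (1 : P) = 0 := fun i => by
        have := congrFun (map_zero X) i
        exact this
      rw [hc, zero_smul, add_zero]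
      funext i
      rw [← hσ i, h1, h2 i]
      rfl
    · exfalso
      obtain ⟨σ, hσ⟩ := (hL (c⁻¹ • y)).1 (L.smul_mem _ hy)
      have h1 : σ.1 x₁ = x₀ := by
        refine hC.eq_of_agree S hS fun i hi => (u i).injective ?_
        have h2 := hvS i hi
        rw [Pi.add_apply, Pi.smul_apply, smul_eq_mul] at h2
        rw [hχ, hσ i, Pi.smul_apply, smul_eq_mul]
        have h3 : δ i = u i (C i x₁) - u i (C i x₀) := rfl
        have h4 : c⁻¹ * y i = - δ i := by
          have : c * (c⁻¹ * y i + δ i) = 0 := by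
            rw [mul_add, mul_inv_cancel_left₀ hc]
            exact h2
          rcases mul_eq_zero.1 this with h | h
          · exact absurd h hc
          · exact eq_neg_of_add_eq_zero_left h
        rw [h4, h3]
        ring
      refine hx₁ σ⁻¹ ?_
      rw [← h1]
      show (σ.1)⁻¹ (σ.1 x₁) = x₁
      exact Equiv.symm_apply_apply _ _
  let b := Module.finBasis (ZMod p) L'
  let c : Fin m → L' := fun l => b (Fin.castLE hfr l)
  have hc : LinearIndependent (ZMod p) c :=
    b.linearIndependent.comp _ (Fin.castLE_injective hfr)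
  refine ⟨fun i l => (c l).1 i, fun f hf hdet => ?_⟩
  obtain ⟨w, hw0, hw⟩ := Matrix.exists_mulVec_eq_zero_iff.2 hdet
  apply hw0
  have h1 : (∑ l, w l • c l : L') = 0 := by
    apply Subtype.ext
    refine claim _ (∑ l, w l • c l : L').2 (univ.map ⟨f, hf⟩) (by simp) fun i hi => ?_
    obtain ⟨j, -, rfl⟩ := Finset.mem_map.1 hi
    have h2 := congrFun hw j
    simp only [Matrix.mulVec, dotProduct, Matrix.of_apply, Pi.zero_apply] at h2
    rw [← h2]
    simp only [Submodule.coe_sum, Submodule.coe_smul, Finset.sum_apply, Pi.smul_apply,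
      smul_eq_mul, Function.Embedding.coeFn_mk]
    exact Finset.sum_congr rfl fun l _ => mul_comm _ _
  funext l
  exact Fintype.linearIndependent_iff.1 hc w h1 l

end Pool.Agent.J6H78.TS.Code
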